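import Pool.Agent.N173.BG.Stm

set_option autoImplicit false

namespace Pool.Agent.N342.BG

open Finset Pool.Agent.TH858 Pool.Agent.TH858.GP Pool.Agent.N173.BG

theorem sp_mono {N : ℕ} [NeZero N] (X : Finset (ZMod N)) (a b : ℝ) (h : a ≤ b) (g : ZMod N)
    (hg : g ∈ Sp X a) : g ∈ Sp X b := by
  unfold Sp at hg ⊢
  rw [mem_filter] at hg ⊢
  refine ⟨hg.1, le_trans ?_ hg.2⟩
  exact mul_le_mul_of_nonneg_right (by linarith) (by positivity)

theorem t_POL (h1 : S_SUM) (h2 : S_PIG) (h3 : S_BIG) (h4 : S_MUL) : S_POL := by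
  intro N _ X M J hX hM hN hJ
  obtain ⟨a, ha⟩ : ∃ a : ℝ, a = 2 * (204 * (M : ℝ) ^ 2) ^ 2 := ⟨_, rfl⟩
  have hM0 : (0 : ℝ) < M := by exact_mod_cast hM
  have hJ0 : (0 : ℝ) < J := by exact_mod_cast hJ
  have ha0 : 0 < a := by rw [ha]; positivity
  obtain ⟨θ, hθ⟩ : ∃ θ : ℝ, θ = 1 / a := ⟨_, rfl⟩
  have hθ0 : 0 < θ := by rw [hθ]; positivity
  obtain ⟨Q, hQ, hQ1, hQ2⟩ := h2 N X M θ hX hM hN hθ0
    (by rw [← ha, hθ, mul_one_div_cancel ha0.ne'])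
  have hQ0 : (0 : ℝ) < Q.card := by exact_mod_cast hQ.card_pos
  refine ⟨univ.filter fun x : ZMod N => (Q.card : ℝ) ^ 2 / 4 ≤ wt Q x,
    h3 N X Q M hX hQ hM hN hQ2, ?_⟩
  have key : ∀ x, (Q.card : ℝ) ^ 2 / 4 ≤ wt Q x → ∀ g ∈ Sp X θ, CB.nn (g * x) ≤ 1 / 100 := by
    intro x hx g hg
    have e1 := shift Q x g
    have e2 := hQ1 g hg
    have e3 : (Q.card : ℝ) / 2 ≤ ‖∑ y ∈ Q, ψ (x * y)‖ := by
      unfold wt at hx
      refine pow_le_pow_iff_left₀ (by positivity) (norm_nonneg _) two_ne_zero |>.1 ?_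
      calc ((Q.card : ℝ) / 2) ^ 2 = (Q.card : ℝ) ^ 2 / 4 := by ring
        _ ≤ _ := hx
    have e4 : (Q.card : ℝ) / 2 * ‖ψ (x * g) - 1‖ ≤ Q.card / 50 := by
      calc (Q.card : ℝ) / 2 * ‖ψ (x * g) - 1‖ ≤ ‖∑ y ∈ Q, ψ (x * y)‖ * ‖ψ (x * g) - 1‖ :=
            mul_le_mul_of_nonneg_right e3 (norm_nonneg _)
        _ ≤ 2 * (Q.card - cnt Q g) := e1
        _ ≤ Q.card / 50 := by linarith
    have e5 : ‖ψ (x * g) - 1‖ ≤ 1 / 25 := by
      by_contra h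
      push Not at h
      have : (Q.card : ℝ) / 2 * (1 / 25) < (Q.card : ℝ) / 2 * ‖ψ (x * g) - 1‖ :=
        mul_lt_mul_of_pos_left h (by positivity)
      linarith
    have e6 := four_nn_le (x * g)
    rw [mul_comm g x]
    linarith
  intro x hx g hg
  rw [mem_filter] at hx
  refine h4 N (g * x) J hJ fun j hj1 hj2 => ?_
  have h5 := h1 N X _ j (fun _ => g) (fun _ => hg)
  rw [sum_const, card_univ, Fintype.card_fin, nsmul_eq_mul] at h5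
  have h6 : (j : ZMod N) * g ∈ Sp X θ := by
    refine sp_mono X _ _ ?_ _ h5
    rw [← ha, hθ]
    have hj : (j : ℝ) ≤ J := by exact_mod_cast hj2
    have hjj : (j : ℝ) ^ 2 ≤ (J : ℝ) ^ 2 := pow_le_pow_left₀ (by positivity) hj 2
    rw [mul_one_div, div_le_div_iff₀ (by positivity) ha0, one_mul, mul_comm a]
    exact mul_le_mul_of_nonneg_right hjj ha0.le
  have := key x hx.2 _ h6
  rwa [mul_assoc] at this

end Pool.Agent.N342.BG
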